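import Pool.Agent.J4H87.DG.Stm

set_option autoImplicit false

/-! # Project DG, job FREE (helper30): six vertices avoiding small bad sets, by counting maps `Fin 6 → V` -/

namespace Pool.Agent.J4H30.DG

open Finset

section
variable {V : Type} [Fintype V] [DecidableEq V]

lemma cnt (k : Fin 6) (G : (Fin 6 → V) → Finset V) (hG : ∀ x v, G (Function.update x k v) = G x)
    (h : ℕ) (hc : ∀ x, (G x).card ≤ h) :
    Fintype.card V * (univ.filter (fun x : Fin 6 → V => x k ∈ G x)).card ≤
      h * Fintype.card (Fin 6 → V) := by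
  classical
  have e1 : (univ.filter (fun p : (Fin 6 → V) × V => p.2 ∈ G p.1)).card ≤
      h * Fintype.card (Fin 6 → V) := by
    rw [card_filter, Fintype.sum_prod_type]
    have : ∀ x : Fin 6 → V, (∑ v : V, if v ∈ G x then 1 else 0) = (G x).card := fun x => by
      rw [← card_filter]
      congr 1
      ext v
      simp
    simp only [this]
    calc ∑ x : Fin 6 → V, (G x).card ≤ ∑ _x : Fin 6 → V, h := sum_le_sum fun x _ => hc x
      _ = h * Fintype.card (Fin 6 → V) := by
        rw [sum_const, card_univ, smul_eq_mul, mul_comm]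
  have e2 : Fintype.card V * (univ.filter (fun x : Fin 6 → V => x k ∈ G x)).card =
      ((univ.filter (fun x : Fin 6 → V => x k ∈ G x)) ×ˢ (univ : Finset V)).card := by
    rw [card_product, card_univ, mul_comm]
  rw [e2]
  refine le_trans (card_le_card_of_injOn
    (fun p : (Fin 6 → V) × V => ((Function.update p.1 k p.2 : Fin 6 → V), p.1 k)) ?_ ?_) e1
  · rintro ⟨x, v⟩ hx
    simp only [coe_product, Set.mem_prod, mem_coe, mem_filter, mem_univ, true_and, and_true,
      coe_univ, Set.mem_univ] at hx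
    simp only [mem_coe, mem_filter, mem_univ, true_and, hG]
    exact hx
  · rintro ⟨x, v⟩ _ ⟨y, w⟩ _ hxy
    simp only [Prod.mk.injEq] at hxy
    obtain ⟨h1, h2⟩ := hxy
    have hv : v = w := by
      have := congrFun h1 k
      simpa using this
    have hxy : x = y := by
      funext j
      by_cases hj : j = k
      · rw [hj]; exact h2
      · have := congrFun h1 j
        simpa [Function.update_of_ne hj] using this
    rw [hv, hxy]

omit [Fintype V] in
lemma cntU {ι : Type} [DecidableEq ι] (T : Finset ι) (A : ι → Finset (Fin 6 → V)) (N M c : ℕ)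
    (hA : ∀ t ∈ T, N * (A t).card ≤ c * M) : N * (T.biUnion A).card ≤ T.card * c * M := by
  calc N * (T.biUnion A).card ≤ N * ∑ t ∈ T, (A t).card := Nat.mul_le_mul_left _ card_biUnion_le
    _ = ∑ t ∈ T, N * (A t).card := mul_sum _ _ _
    _ ≤ ∑ _t ∈ T, c * M := sum_le_sum hA
    _ = T.card * c * M := by rw [sum_const, smul_eq_mul, mul_assoc]

end

theorem t_FREE : Pool.Agent.J4H87.DG.S_FREE := by
  classical
  intro V _ _ h H2 H3 h2 h3 hN
  by_contra hcon
  push Not at hcon
  set T1 : Finset (Fin 6 × Fin 6) := univ.filter (fun p => p.1 ≠ p.2) with hT1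
  set T2 : Finset (Fin 6 × Fin 6 × Fin 6) := univ.filter (fun p => p.1 ≠ p.2.1 ∧ p.1 ≠ p.2.2) with hT2
  set T3 : Finset (Fin 6 × Fin 6 × Fin 6 × Fin 6) :=
    univ.filter (fun p => p.1 ≠ p.2.1 ∧ p.1 ≠ p.2.2.1 ∧ p.1 ≠ p.2.2.2) with hT3
  set A1 : Fin 6 × Fin 6 → Finset (Fin 6 → V) :=
    fun p => univ.filter (fun x => x p.1 ∈ ({x p.2} : Finset V)) with hA1
  set A2 : Fin 6 × Fin 6 × Fin 6 → Finset (Fin 6 → V) :=
    fun p => univ.filter (fun x => x p.1 ∈ H2 (x p.2.1) (x p.2.2)) with hA2
  set A3 : Fin 6 × Fin 6 × Fin 6 × Fin 6 → Finset (Fin 6 → V) :=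
    fun p => univ.filter (fun x => x p.1 ∈ H3 (x p.2.1) (x p.2.2.1) (x p.2.2.2)) with hA3
  set M := Fintype.card (Fin 6 → V) with hM
  set N := Fintype.card V with hNdef
  have b1 : N * (T1.biUnion A1).card ≤ T1.card * 1 * M := by
    refine cntU T1 A1 N M 1 fun p hp => ?_
    have hp' : p.1 ≠ p.2 := by simpa [hT1] using hp
    refine cnt p.1 (fun x => {x p.2}) (fun x v => ?_) 1 (fun x => by simp)
    simp [Function.update_of_ne hp'.symm]
  have b2 : N * (T2.biUnion A2).card ≤ T2.card * h * M := by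
    refine cntU T2 A2 N M h fun p hp => ?_
    have hp' : p.1 ≠ p.2.1 ∧ p.1 ≠ p.2.2 := by simpa [hT2] using hp
    refine cnt p.1 (fun x => H2 (x p.2.1) (x p.2.2)) (fun x v => ?_) h (fun x => h2 _ _)
    simp [Function.update_of_ne hp'.1.symm, Function.update_of_ne hp'.2.symm]
  have b3 : N * (T3.biUnion A3).card ≤ T3.card * h * M := by
    refine cntU T3 A3 N M h fun p hp => ?_
    have hp' : p.1 ≠ p.2.1 ∧ p.1 ≠ p.2.2.1 ∧ p.1 ≠ p.2.2.2 := by simpa [hT3] using hp
    refine cnt p.1 (fun x => H3 (x p.2.1) (x p.2.2.1) (x p.2.2.2)) (fun x v => ?_) h (fun x => h3 _ _ _)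
    simp [Function.update_of_ne hp'.1.symm, Function.update_of_ne hp'.2.1.symm,
      Function.update_of_ne hp'.2.2.symm]
  have c1 : T1.card = 30 := by rw [hT1]; decide
  have c2 : T2.card ≤ 216 := by
    calc T2.card ≤ (univ : Finset (Fin 6 × Fin 6 × Fin 6)).card := card_filter_le _ _
      _ = 216 := by simp
  have c3 : T3.card ≤ 1296 := by
    calc T3.card ≤ (univ : Finset (Fin 6 × Fin 6 × Fin 6 × Fin 6)).card := card_filter_le _ _
      _ = 1296 := by simp
  have hcov : (univ : Finset (Fin 6 → V)) ⊆ T1.biUnion A1 ∪ (T2.biUnion A2 ∪ T3.biUnion A3) := by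
    intro x _
    simp only [mem_union, mem_biUnion]
    by_cases hinj : Function.Injective x
    · by_cases hx2 : ∀ i j k, k ≠ i → k ≠ j → x k ∉ H2 (x i) (x j)
      · obtain ⟨i, j, l, k, hki, hkj, hkl, hk⟩ := hcon x hinj hx2
        right; right
        exact ⟨(k, i, j, l), by simp [hT3, hki, hkj, hkl], by simpa [hA3] using hk⟩
      · push Not at hx2
        obtain ⟨i, j, k, hki, hkj, hk⟩ := hx2
        right; left
        exact ⟨(k, i, j), by simp [hT2, hki, hkj], by simpa [hA2] using hk⟩
    · rw [Function.Injective] at hinj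
      push Not at hinj
      obtain ⟨i, j, hij, hne⟩ := hinj
      left
      exact ⟨(i, j), by simp [hT1, hne], by simpa [hA1] using hij⟩
  have hMle : M ≤ (T1.biUnion A1).card + ((T2.biUnion A2).card + (T3.biUnion A3).card) := by
    calc M = (univ : Finset (Fin 6 → V)).card := (card_univ).symm
      _ ≤ _ := card_le_card hcov
      _ ≤ _ := (card_union_le _ _).trans (Nat.add_le_add_left (card_union_le _ _) _)
  have hN0 : 0 < N := by omega
  have hM0 : 0 < M := by
    have : Nonempty V := Fintype.card_pos_iff.mp hN0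
    exact Fintype.card_pos
  have d2 : T2.card * h * M ≤ 216 * h * M := by gcongr
  have d3 : T3.card * h * M ≤ 1296 * h * M := by gcongr
  have hfin : N * M ≤ (30 + 1512 * h) * M := by
    calc N * M ≤ N * ((T1.biUnion A1).card + ((T2.biUnion A2).card + (T3.biUnion A3).card)) := by
          gcongr
      _ = N * (T1.biUnion A1).card + (N * (T2.biUnion A2).card + N * (T3.biUnion A3).card) := by ring
      _ ≤ 30 * 1 * M + (216 * h * M + 1296 * h * M) := by
          rw [c1] at b1
          exact Nat.add_le_add b1 (Nat.add_le_add (b2.trans d2) (b3.trans d3))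
      _ = (30 + 1512 * h) * M := by ring
  have := Nat.le_of_mul_le_mul_right hfin hM0
  omega

end Pool.Agent.J4H30.DG

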